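import Pool.Agent.Q138.PS.YD

/-!
# Points with complex multiplication on a curve: none with denominators close to the real multiples of polynomial values

Let `U` be a nonempty connected open subset of `ℂ` (of `ℂ ^ X` for a one-element set `X`), and `F_j`, `j` in a finite set `J`,
matrices of analytic functions on `U` with rows indexed by `H` and `r j` columns (`f ⟨j, (m, c)⟩` is the entry `(m, c)` of `F_j`;
e.g. bases of the pieces of the Hodge filtration of a variation of Hodge structure in a flat basis), with the hypotheses of the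
starting result `BoundedEndomorphisms` (`RegularM`, `MonInv`).

There is `ω → ∞` such that for all integers `s ≥ 1` and all `l < 1` there is a set `Z` of real numbers of Hausdorff dimension at most
`1 / (s (1 - l))` such that every real `α > 0` outside `Z` has the following property. For all number fields `K ⊂ ℂ`, all `R ≥ 1`, ALL
real polynomials `P` with algebraic coefficients, of degree at least `s`, with positive leading coefficient, all real `D` and all
large `N`, for EVERY integer `q ≥ 1` with `|q - α P(N)| ≤ D (α P(N)) ^ l`, NO element `t` of `K` with denominator `q` (the least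
positive integer for which `q t` is an algebraic integer) is, with `T = R q`, in the set of the points of height at most `T`, of
norm at most `ω T` and at distance at least `1 / ω T` from the complement of `U`, which have an endomorphism of height at most
`T ^ ω T` a conjugate of which (under the monodromy) is not an endomorphism; in particular (if the monodromy `Γ` is infinite and
the stabilizers are finite) no such `t` has complex multiplication by an endomorphism of height at most `T ^ ω T` with distinct
eigenvalues.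
-/

set_option autoImplicit false

namespace Pool.Agent.Results.MP_2794d1_ag.CMDenominatorsNearMultiples

open Filter Matrix Pool.Agent Pool.Agent.Y890.MV Pool.Agent.Y890.VH Pool.Agent.Q138.PS Pool.Agent.Q138.PS.CMOne

/-- **Theorem.** -/
theorem result {X H J : Type} [Fintype X] [DecidableEq X] [Unique X] [Fintype H] [DecidableEq H] [Fintype J]
    [DecidableEq J] {r : J → ℕ} {U : Set (X → ℂ)} {f : Sg H J r → (X → ℂ) → ℂ}
    (hU : IsPreconnected U) (hUo : IsOpen U) (hne : U.Nonempty) (hf : ∀ i, AnalyticOnNhd ℂ (f i) U)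
    (hreg : RegularM U f) (Γ : Subgroup (GL H ℂ)) (hΓ : ∀ γ ∈ Γ, MonInv U f (γ : Matrix H H ℂ)) :
    ∃ ω : ℝ → ℕ, Tendsto ω atTop atTop ∧ Monotone ω ∧ ∀ (s : ℕ) (l : ℝ), 1 ≤ s → l < 1 →
      ∃ Z : Set ℝ, dimH Z ≤ ENNReal.ofReal (1 / s / (1 - l)) ∧ ∀ α : ℝ, 0 < α → α ∉ Z →
        ∀ (K : IntermediateField ℚ ℂ) [NumberField K] (R : ℕ), 1 ≤ R → ∀ P : Polynomial ℝ, PolyOK s P → ∀ D : ℝ,
          ∀ᶠ N : ℕ in atTop, ∀ q : ℕ, 1 ≤ q → NearMul α (P.eval (N : ℝ)) D l q → ∀ t : K, den t = q →
            t ∉ Exc U f Γ ω K (algebraMap K ℂ) (R * q) ∧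
            (Infinite Γ → (∀ x ∈ U, (Stab Γ fun y => f y x).Finite) → t ∉ CM U f ω K (algebraMap K ℂ) (R * q)) := by
  obtain ⟨ω, T₀, hω, hωm, h1, h2, h3⟩ :=
    Pool.Agent.Q138.PS.CMOne.main hU hUo hne hf hreg Γ hΓ
  refine ⟨ω, hω, hωm, fun s l hs hl => ?_⟩
  obtain ⟨Z, hZ, hz⟩ := omega_den_mul (fun F _ _ ι T => Exc U f Γ ω F ι T) ω hω T₀ h1 h2 s hs l hl
  refine ⟨Z, hZ, fun α hα hαZ K _ R hR P hP D => ?_⟩
  obtain ⟨T₁, hT₁⟩ := eventually_atTop.1 (hω.eventually_ge_atTop (Module.finrank ℚ K))
  filter_upwards [hz α hα hαZ K R hR P hP D, nearMul_large hα hs hP D hl (max T₀ T₁)] with N hN hN1 q hq hnear t ht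
  refine ⟨hN q hq hnear t ht, fun hi hs hcm => hN q hq hnear t ht ?_⟩
  have h4 := hN1 q hnear
  have hR1 : (1 : ℝ) ≤ R := by exact_mod_cast hR
  have h5 : max T₀ T₁ ≤ R * (q : ℝ) := h4.trans (le_mul_of_one_le_left (Nat.cast_nonneg _) hR1)
  exact h3 hi hs _ ((le_max_left _ _).trans h5) K (hT₁ _ ((le_max_right _ _).trans h5)) _ hcm

end Pool.Agent.Results.MP_2794d1_ag.CMDenominatorsNearMultiples
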