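import Pool.Agent.Q138.PS.WC
import Pool.Agent.Y890.VH.Main

/-!
# Points with complex multiplication close to a given point, for variations of Hodge structure over open subsets of affine spaces

Let `U` be a nonempty connected open subset of `ℂ ^ X`, and `F_j`, `j` in a finite set `J`, matrices of analytic functions on `U`
with rows indexed by `H` and `r j` columns (`f ⟨j, (m, c)⟩` is the entry `(m, c)` of `F_j`; e.g. bases of the pieces of the Hodge
filtration in a flat basis), with the hypotheses of the starting result `BoundedEndomorphisms` (`RegularM`, `MonInv`).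

Points with complex multiplication are dense in general, in the analytic sense too, so near every point `z` there are CM points.
We show that outside a set of `z` of HAUSDORFF DIMENSION ZERO no `z ∈ ℂ ^ X` has exceptionally good approximations by CM points (or
points with unexpected endomorphisms) over any given number field: there is `ω → ∞` such that for every number field `K ⊂ ℂ`
there is `θ > 0` such that for all large `T` all points `s ∈ K ^ X` of height at most `T` with `|s_j - z_j| ≤ T ^ (-θ)` for all `j`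
are not in the set `ExcEnd` of the points which have an endomorphism of height at most `T ^ ω T` a conjugate of which (under the
monodromy) is not an endomorphism, in particular (if the monodromy `Γ` is infinite and the stabilizers are finite) they do not have
complex multiplication by an endomorphism of height at most `T ^ ω T` with distinct eigenvalues.

Here `θ` may depend on `z`. For fixed `θ > 0` and a fixed bound `m` for the degree of `K` the set of exceptional `z` has Hausdorff
dimension at most `2 m (|X| - 1) / θ`; this is `0` for `|X| = 1` (curves), for every `θ`. For comparison, for `θ < 2` almost every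
`z ∈ ℝ ^ X` has approximations over `ℚ` of height `T` and of quality `T ^ (-θ)` for all large `T`; those with CM ones, for arbitrarily
large `T`, form a set of dimension at most `2 (|X| - 1) / θ`.
-/

set_option autoImplicit false

namespace Pool.Agent.Results.MP_2794d1_ag.CMPointsNearGivenPoints

open Filter Matrix Pool.Agent Pool.Agent.Y890.MV Pool.Agent.Y890.VH Pool.Agent.Q138.PS

/-- the point `z` is not `T ^ (-θ)`-close to an exceptional point of `K`, and not to a CM point of `K` -/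
def Avoids {X H J : Type} [Fintype X] [DecidableEq X] [Fintype H] [DecidableEq H] [Fintype J] [DecidableEq J] {r : J → ℕ}
    (U : Set (X → ℂ)) (f : Sg H J r → (X → ℂ) → ℂ) (Γ : Subgroup (GL H ℂ)) (ω : ℝ → ℕ) (θ : ℝ) (z : X → ℂ)
    (K : IntermediateField ℚ ℂ) [NumberField K] (T : ℝ) : Prop :=
  (∀ s ∈ ExcEnd f (InnerM U (ω T)) K (algebraMap K ℂ) Γ (ω T : ℝ) T, ∃ j, T ^ (-θ) < ‖((s j : K) : ℂ) - z j‖) ∧
  (Infinite Γ → (∀ x ∈ U, (Stab Γ fun y => f y x).Finite) →
    ∀ s ∈ CMPts f (InnerM U (ω T)) K (algebraMap K ℂ) (ω T : ℝ) T, ∃ j, T ^ (-θ) < ‖((s j : K) : ℂ) - z j‖)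

/-- **Theorem.** -/
theorem result {X H J : Type} [Fintype X] [DecidableEq X] [Nonempty X] [Fintype H] [DecidableEq H] [Fintype J]
    [DecidableEq J] {r : J → ℕ} {U : Set (X → ℂ)} {f : Sg H J r → (X → ℂ) → ℂ}
    (hU : IsPreconnected U) (hUo : IsOpen U) (hne : U.Nonempty) (hf : ∀ i, AnalyticOnNhd ℂ (f i) U)
    (hreg : RegularM U f) (Γ : Subgroup (GL H ℂ)) (hΓ : ∀ γ ∈ Γ, MonInv U f (γ : Matrix H H ℂ)) :
    ∃ ω : ℝ → ℕ, Tendsto ω atTop atTop ∧ Monotone ω ∧
      (∀ θ : ℝ, 0 < θ → ∀ m : ℕ, ∃ Z : Set (X → ℂ), dimH Z ≤ ENNReal.ofReal (2 * m * (Fintype.card X - 1 : ℕ) / θ) ∧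
        ∀ z, z ∉ Z → ∀ (K : IntermediateField ℚ ℂ) [NumberField K], Module.finrank ℚ K ≤ m →
          ∀ᶠ T : ℝ in atTop, Avoids U f Γ ω θ z K T) ∧
      ∃ Z : Set (X → ℂ), dimH Z = 0 ∧ ∀ z, z ∉ Z → ∀ (K : IntermediateField ℚ ℂ) [NumberField K],
        ∃ θ : ℝ, 0 < θ ∧ ∀ᶠ T : ℝ in atTop, Avoids U f Γ ω θ z K T := by
  obtain ⟨ω, T₀, hω, hωm, h⟩ := Pool.Agent.Y890.VH.main hU hUo hne hf hreg Γ hΓ
  have hin : ∀ k k' : ℕ, 0 < k → k ≤ k' → InnerM U k ⊆ InnerM U k' := by
    intro k k' hk hkk z hz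
    refine ⟨hz.1.trans (by exact_mod_cast hkk), subset_trans (Metric.ball_subset_ball ?_) hz.2⟩
    exact inv_anti₀ (by exact_mod_cast hk) (by exact_mod_cast hkk)
  have hn := near_omega (X := X) (Fintype.card X - 1)
    (fun F _ _ ι T => ExcEnd f (InnerM U (ω T)) F ι Γ (ω T : ℝ) T) (fun F _ _ T => {x : F | Y120.HtLe F T x})
    (by
      rintro F _ _ T x ⟨a, b, hb, ha', hb', rfl⟩
      exact ⟨a, b, hb, fun φ => ⟨(norm_le_pi_norm (NumberField.canonicalEmbedding F (a : F)) φ).trans ha',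
        (norm_le_pi_norm (NumberField.canonicalEmbedding F (b : F)) φ).trans hb'⟩, rfl⟩)
    ω hω T₀ (fun T hT F _ _ hF ι => ⟨((h T hT).2 F hF ι).2.1, ((h T hT).2 F hF ι).2.2.1⟩)
    (by
      intro F _ _ ι
      filter_upwards [eventually_ge_atTop T₀, eventually_ge_atTop 1] with T hT hT1
      intro T' hT' s
      rintro ⟨h1, h2, M, h3, h4, h5⟩
      refine ⟨fun j => ?_, hin _ _ (h T hT).1 (hωm hT') h2, M, fun i j φ => (h3 i j φ).trans ?_, h4, h5⟩
      · obtain ⟨a, b, hb, ha', hb', he⟩ := h1 j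
        exact ⟨a, b, hb, ha'.trans hT', hb'.trans hT', he⟩
      · refine (Real.rpow_le_rpow (by linarith) hT' (Nat.cast_nonneg _)).trans ?_
        exact Real.rpow_le_rpow_of_exponent_le (hT1.trans hT') (by exact_mod_cast hωm hT'))
  have hcm : ∀ (K : IntermediateField ℚ ℂ) [NumberField K] (θ : ℝ) (z : X → ℂ),
      (∀ᶠ T : ℝ in atTop, ∀ t ∈ ExcEnd f (InnerM U (ω T)) K (algebraMap K ℂ) Γ (ω T : ℝ) T,
        ∃ j, T ^ (-θ) < ‖((t j : K) : ℂ) - z j‖) → ∀ᶠ T : ℝ in atTop, Avoids U f Γ ω θ z K T := by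
    intro K hK θ z hz
    filter_upwards [hz, eventually_ge_atTop T₀, hω.eventually_ge_atTop (Module.finrank ℚ K)] with T h1 h2 h3
    exact ⟨h1, fun hi hs s hs' => h1 s (((h T h2).2 K h3 (algebraMap K ℂ)).2.2.2 hi hs hs')⟩
  refine ⟨ω, hω, hωm, fun θ hθ m => ?_, ?_⟩
  · obtain ⟨Z, hZ, hz⟩ := hn.1 θ hθ m
    exact ⟨Z, hZ, fun z hzZ K _ hK => hcm K θ z (hz z hzZ K hK)⟩
  · obtain ⟨Z, hZ, hz⟩ := hn.2
    refine ⟨Z, hZ, fun z hzZ K _ => ?_⟩
    obtain ⟨θ, hθ, h1⟩ := hz z hzZ K
    exact ⟨θ, hθ, hcm K θ z h1⟩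

end Pool.Agent.Results.MP_2794d1_ag.CMPointsNearGivenPoints
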