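import Pool.Agent.Q84.NX.Fam3
import Pool.Agent.Results.MP_2794d1_ag.BoundedEndomorphisms

/-!
# Points with complex multiplication of one-parameter variations and the primes of strings of consecutive primes

Let `U` be a nonempty connected open subset of `ℂ ^ X`, `|X| = 1`, and `F_j`, `j` in a finite set, matrices of analytic
functions on `U` (e.g. bases of the pieces of the Hodge filtration in a flat basis) as in the starting result
`BoundedEndomorphisms` (`RegularM`, `MonInv`), `Γ` the group, `K` a number field in `ℂ`, `A > 0`. There is `ω → ∞` not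
depending on `K`, `A`, there is `c > 0`, for all `κ > 0` and `m` there is `c' > 0` and for every `Z` a number `D` with the
following property. For every large `X` there is a set `S` of at most `(log X) ^ (49 / 50)` primes, all larger than `Z`,
such that for EVERY function `f` with values `1` and `-1` on the primes at least `X ^ (1 - κ)` integers `n`, `X < n ≤ 3X`,
satisfy: the interval `[n, n + D]` contains at least `m` primes, and for every prime `p` in it, `T = p ^ A`,

* the Legendre symbol `(p / q)` is `f q` for all odd primes `q ≤ c' log X` outside `S`;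
* for all exceptional points `s ≠ 0` of `K` of height at most `T` (`ExcEnd`: in the part of `U` of norm `≤ ω(T)` at distance
  `≥ 1 / ω(T)` from the complement, with an endomorphism of size `≤ T ^ ω(T)` over `K` a conjugate of which under the
  monodromy is no endomorphism; this includes, for infinite `Γ` with finite stabilizers, the points `CMPts` with such an
  endomorphism with distinct eigenvalues) the product of the norms of the primes of `K` in the numerator and in the
  denominator of `s` has no divisor within `p ^ c` of a positive multiple of `p`. In particular no prime of `K` over `p`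
  divides the numerator or the denominator of `s`.

Method: the starting result `BoundedEndomorphisms` counts the exceptional points; the divisor bound; few primes divide a
number near a divisor of one of the products (`Q84/NX/Core`, `Q84/NX/TriJ`); the Maynard-Tao theorem relative to a modulus
which is a small power of `X`, in the form that it avoids arbitrary exceptional sets of size `X ^ (1 - η)`
(`Q84/MB/E1-E4`), gives the strings.
-/

set_option autoImplicit false

open scoped Classical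

namespace Pool.Agent.Results.MP_2794d1_ag.StringsOfPrimes

open Finset Filter NumberField IsDedekindDomain
open Pool.Agent Pool.Agent.Y890.MV Pool.Agent.Y890.VH

section radical

variable {K : Type} [Field K] [NumberField K]

/-- the product of the norms of the primes `v` of `K` with `|x|_v < 1` -/
noncomputable def rad (x : K) : ℕ :=
  ∏ᶠ v : HeightOneSpectrum (𝓞 K), if FinitePlace.mk v x < 1 then Ideal.absNorm v.asIdeal else 1

/-- the norm of an integer is at most the power of its house -/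
theorem absNorm_le (a : 𝓞 K) : (Ideal.absNorm (Ideal.span {a}) : ℝ) ≤ house (a : K) ^ Module.finrank ℚ K := by
  have hd : 0 < Module.finrank ℚ K := Module.finrank_pos
  obtain ⟨σ⟩ : Nonempty (K →+* ℂ) := inferInstance
  have h1 := norm_norm_le_norm_mul_house_pow (a : K) σ
  have h2 := norm_embedding_le_house (a : K) σ
  have h3 : (Ideal.absNorm (Ideal.span {a}) : ℝ) = ‖Algebra.norm ℚ (a : K)‖ := by
    rw [Ideal.absNorm_span_singleton, ← Algebra.coe_norm_int, Nat.cast_natAbs, Int.norm_cast_rat, Int.norm_eq_abs,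
      Int.cast_abs]
  rw [h3]
  calc ‖Algebra.norm ℚ (a : K)‖ ≤ house (a : K) * house (a : K) ^ (Module.finrank ℚ K - 1) :=
        h1.trans (mul_le_mul_of_nonneg_right h2 (by have := house_nonneg (a : K); positivity))
    _ = house (a : K) ^ Module.finrank ℚ K := by
        rw [← pow_succ']
        congr 1
        omega

/-- the radical of a quotient of two integers -/
theorem rad_le (a b : 𝓞 K) (ha : a ≠ 0) (hb : b ≠ 0) :
    1 ≤ rad ((a : K) / b) ∧ (rad ((a : K) / b) : ℝ) ≤ house (a : K) ^ Module.finrank ℚ K := by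
  have hb' : (b : K) ≠ 0 := by
    intro h
    exact hb (RingOfIntegers.ext h)
  have hmem : ∀ v : HeightOneSpectrum (𝓞 K), FinitePlace.mk v ((a : K) / b) < 1 → a ∈ v.asIdeal := by
    intro v hv
    have h1 : FinitePlace.mk v (b : K) ≤ 1 := by
      rw [FinitePlace.mk_apply]
      exact FinitePlace.norm_le_one K v b
    have h2 : 0 < FinitePlace.mk v (b : K) := FinitePlace.pos_iff.2 hb'
    have h3 : FinitePlace.mk v (a : K) = FinitePlace.mk v ((a : K) / b) * FinitePlace.mk v (b : K) := by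
      rw [← map_mul, div_mul_cancel₀ _ hb']
    have h4 : FinitePlace.mk v (a : K) < 1 := by
      rw [h3]
      calc FinitePlace.mk v ((a : K) / b) * FinitePlace.mk v (b : K) < 1 * FinitePlace.mk v (b : K) :=
            mul_lt_mul_of_pos_right hv h2
        _ ≤ 1 := by linarith
    rw [FinitePlace.mk_apply] at h4
    exact (FinitePlace.norm_lt_one_iff_mem K v a).1 h4
  have hspan : Ideal.span {a} ≠ ⊥ := by
    rw [Ne, Ideal.span_singleton_eq_bot]
    exact ha
  have hfin : {v : HeightOneSpectrum (𝓞 K) | FinitePlace.mk v ((a : K) / b) < 1}.Finite := by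
    refine (Ideal.finite_factors hspan).subset ?_
    intro v hv
    rw [Set.mem_ofPred_eq, Ideal.dvd_span_singleton]
    exact hmem v hv
  obtain ⟨T, hT⟩ : ∃ T, T = hfin.toFinset := ⟨_, rfl⟩
  have hTm : ∀ v, v ∈ T ↔ FinitePlace.mk v ((a : K) / b) < 1 := by
    intro v
    rw [hT, Set.Finite.mem_toFinset]
    rfl
  have h1 : rad ((a : K) / b) = ∏ v ∈ T, Ideal.absNorm v.asIdeal := by
    unfold rad
    rw [finprod_eq_prod_of_mulSupport_subset (s := T)]
    · apply prod_congr rfl
      intro v hv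
      rw [if_pos ((hTm v).1 hv)]
    · intro v hv
      rw [Function.mem_mulSupport] at hv
      rw [mem_coe, hTm]
      by_contra h
      exact hv (if_neg h)
  have hpos : rad ((a : K) / b) ≠ 0 := by
    rw [h1]
    apply prod_ne_zero_iff.2
    intro v _
    rw [Ne, Ideal.absNorm_eq_zero_iff]
    exact v.ne_bot
  refine ⟨Nat.one_le_iff_ne_zero.2 hpos, ?_⟩
  refine le_trans ?_ (absNorm_le a)
  have h2 : ∏ v ∈ T, v.asIdeal ∣ Ideal.span {a} := by
    have hinj : Set.InjOn (fun v : HeightOneSpectrum (𝓞 K) => v.asIdeal) (T : Set (HeightOneSpectrum (𝓞 K))) := by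
      intro v _ w _ h
      exact HeightOneSpectrum.ext h
    rw [← prod_image (f := fun I : Ideal (𝓞 K) => I) (g := fun v : HeightOneSpectrum (𝓞 K) => v.asIdeal) hinj]
    apply Finset.prod_primes_dvd
    · intro I hI
      rw [mem_image] at hI
      obtain ⟨v, _, rfl⟩ := hI
      exact v.prime
    · intro I hI
      rw [mem_image] at hI
      obtain ⟨v, hv, rfl⟩ := hI
      rw [Ideal.dvd_span_singleton]
      exact hmem v ((hTm v).1 hv)
  have h3 : rad ((a : K) / b) ∣ Ideal.absNorm (Ideal.span {a}) := by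
    rw [h1, ← map_prod]
    exact map_dvd Ideal.absNorm h2
  have h4 : Ideal.absNorm (Ideal.span {a}) ≠ 0 := by
    rw [Ne, Ideal.absNorm_eq_zero_iff]
    exact hspan
  exact_mod_cast Nat.le_of_dvd (Nat.pos_of_ne_zero h4) h3

end radical

/-- at the scale `T = p ^ A`: no exceptional point, and no CM point, `s`, all coordinates `≠ 0`, has a divisor `r` of the
product of the norms of the primes of the numerators and denominators of its coordinates within `p ^ c` of a positive
multiple of `p` -/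
def Fine {X H J : Type} [Fintype X] [DecidableEq X] [Fintype H] [DecidableEq H] [Fintype J] [DecidableEq J]
    {r : J → ℕ} (U : Set (X → ℂ)) (f : Sg H J r → (X → ℂ) → ℂ) (Γ : Subgroup (GL H ℂ)) (ω : ℝ → ℕ)
    (K : Type) [Field K] [NumberField K] (io : K →+* ℂ) (A c : ℝ) (p : ℕ) : Prop :=
  ∀ T : ℝ, T = (p : ℝ) ^ A → ∀ s : X → K, (∀ j, s j ≠ 0) →
    (s ∈ ExcEnd f (InnerM U (ω T)) K io Γ (ω T : ℝ) T ∨
      (Infinite Γ ∧ (∀ x ∈ U, (Stab Γ fun y => f y x).Finite) ∧ s ∈ CMPts f (InnerM U (ω T)) K io (ω T : ℝ) T)) →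
    ∀ k d : ℕ, 1 ≤ k → |(d : ℝ) - k * p| ≤ (p : ℝ) ^ c → ¬ d ∣ ∏ j, rad (s j) * rad (s j)⁻¹

/-- **Theorem.** -/
theorem result {X H J : Type} [Fintype X] [DecidableEq X] [Nonempty X] [Fintype H] [DecidableEq H] [Fintype J]
    [DecidableEq J] {r : J → ℕ} {U : Set (X → ℂ)} {f : Sg H J r → (X → ℂ) → ℂ} (hX : Fintype.card X = 1)
    (hU : IsPreconnected U) (hUo : IsOpen U) (hne : U.Nonempty) (hf : ∀ i, AnalyticOnNhd ℂ (f i) U)
    (hreg : RegularM U f) (Γ : Subgroup (GL H ℂ)) (hΓ : ∀ γ ∈ Γ, MonInv U f (γ : Matrix H H ℂ)) :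
    ∃ ω : ℝ → ℕ, Tendsto ω atTop atTop ∧ Monotone ω ∧
    ∀ (K : Type) [Field K] [NumberField K] (io : K →+* ℂ) (A : ℝ), 0 < A → ∃ c : ℝ, 0 < c ∧
    ∀ κ : ℝ, 0 < κ → ∀ m : ℕ, ∃ c' : ℝ, 0 < c' ∧
    ∀ Z : ℕ, ∃ D : ℕ, ∃ X₀ : ℝ, ∀ x : ℝ, X₀ ≤ x →
    ∃ S : Finset ℕ, (∀ q ∈ S, q.Prime ∧ Z < q) ∧ (S.card : ℝ) ≤ (Real.log x) ^ (49 / 50 : ℝ) ∧
    ∀ g : ℕ → ℤ, (∀ q, g q = 1 ∨ g q = -1) →
      x ^ (1 - κ) ≤ (((Icc 1 ⌊3 * x⌋₊).filter fun n : ℕ => x < n ∧
        m ≤ ((Icc n (n + D)).filter Nat.Prime).card ∧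
        ∀ p ∈ Icc n (n + D), p.Prime → Fine U f Γ ω K io A c p ∧
          ∀ q : ℕ, q.Prime → q ≠ 2 → (q : ℝ) ≤ c' * Real.log x → q ∉ S → jacobiSym p q = g q).card : ℝ) := by
  obtain ⟨ω, T₀, hω, hωm, h⟩ := BoundedEndomorphisms.result hU hUo hne hf hreg Γ hΓ
  refine ⟨ω, hω, hωm, fun K _ _ io A hA => ?_⟩
  have hin : ∀ k k' : ℕ, 0 < k → k ≤ k' → InnerM U k ⊆ InnerM U k' := by
    intro k k' hk hkk z hz
    refine ⟨hz.1.trans (by exact_mod_cast hkk), subset_trans (Metric.ball_subset_ball ?_) hz.2⟩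
    exact inv_anti₀ (by exact_mod_cast hk) (by exact_mod_cast hkk)
  obtain ⟨γ, hγ⟩ : ∃ γ : ℝ, γ = 1 / (2 * A) := ⟨_, rfl⟩
  have hγ0 : 0 < γ := by rw [hγ]; positivity
  have hAγ : A * γ < 1 := by
    rw [hγ, mul_one_div, div_lt_one (by positivity)]
    linarith
  obtain ⟨T₁, hT₁⟩ : ∃ T₁ : ℝ, ∀ T : ℝ, T₁ ≤ T → T₀ ≤ T ∧ 1 ≤ T ∧ Module.finrank ℚ K ≤ ω T ∧ ⌈1 / γ⌉₊ ≤ ω T := by
    have h1 : ∀ᶠ T : ℝ in atTop, T₀ ≤ T ∧ 1 ≤ T ∧ Module.finrank ℚ K ≤ ω T ∧ ⌈1 / γ⌉₊ ≤ ω T := by
      filter_upwards [eventually_ge_atTop T₀, eventually_ge_atTop 1, hω.eventually_ge_atTop (Module.finrank ℚ K),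
        hω.eventually_ge_atTop ⌈1 / γ⌉₊] with T h1 h2 h3 h4
      exact ⟨h1, h2, h3, h4⟩
    rw [eventually_atTop] at h1
    exact h1
  have hd1 : 1 ≤ Module.finrank ℚ K := Module.finrank_pos
  obtain ⟨E, hE⟩ : ∃ E : ℝ → Set (X → K), E = fun T : ℝ => {s : X → K | T₁ ≤ T ∧ (∀ j, s j ≠ 0) ∧
      s ∈ ExcEnd f (InnerM U (ω T)) K io Γ (ω T : ℝ) T} := ⟨_, rfl⟩
  have hmono : ∀ B B' : ℝ, B ≤ B' → E B ⊆ E B' := by
    intro T T' hT' s hs
    rw [hE] at hs ⊢
    obtain ⟨hT, hs0, h1, h2, M, h3, h4, h5⟩ := hs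
    obtain ⟨hT0, hT1, _, _⟩ := hT₁ T hT
    refine ⟨hT.trans hT', hs0, fun j => ?_, hin _ _ (h T hT0).1 (hωm hT') h2, M, fun i j φ => (h3 i j φ).trans ?_, h4, h5⟩
    · obtain ⟨a, b, hb, ha', hb', he⟩ := h1 j
      exact ⟨a, b, hb, ha'.trans hT', hb'.trans hT', he⟩
    · refine (Real.rpow_le_rpow (by linarith) hT' (Nat.cast_nonneg _)).trans ?_
      exact Real.rpow_le_rpow_of_exponent_le (hT1.trans hT') (by exact_mod_cast hωm hT')
  have hcount : ∀ B : ℝ, 1 ≤ B → (E B).Finite ∧ ((E B).ncard : ℝ) ≤ 1 * B ^ γ := by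
    intro B hB
    by_cases hTB : T₁ ≤ B
    · obtain ⟨hT0, hT1, hK, hωγ⟩ := hT₁ B hTB
      obtain ⟨h0, h1⟩ := h B hT0
      obtain ⟨_, h2, h3, _⟩ := h1 K hK io
      have hsub : E B ⊆ ExcEnd f (InnerM U (ω B)) K io Γ (ω B : ℝ) B := by
        intro s hs
        rw [hE] at hs
        exact hs.2.2
      refine ⟨h2.subset hsub, ?_⟩
      have h4 : ((E B).ncard : ℝ) ≤ ((ExcEnd f (InnerM U (ω B)) K io Γ (ω B : ℝ) B).ncard : ℝ) := by
        exact_mod_cast Set.ncard_le_ncard hsub h2
      refine h4.trans (h3.trans ?_)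
      rw [hX, Nat.sub_self, pow_zero, mul_one, one_mul]
      apply Real.rpow_le_rpow_of_exponent_le hT1
      rw [inv_le_comm₀ (by exact_mod_cast h0) hγ0, ← one_div]
      exact (Nat.le_ceil _).trans (by exact_mod_cast hωγ)
    · have h1 : E B = ∅ := by
        rw [hE]
        apply Set.eq_empty_of_forall_notMem
        intro s hs
        exact hTB hs.1
      rw [h1]
      refine ⟨Set.finite_empty, ?_⟩
      rw [Set.ncard_empty, Nat.cast_zero]
      positivity
  obtain ⟨c, hc, hc4, hmain⟩ := Pool.Agent.Q84.NX.obj_strings E hmono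
    (fun s : X → K => ∏ j, rad (s j) * rad (s j)⁻¹) (2 * Module.finrank ℚ K) (by omega) 1 (by
      intro B hB s hs
      rw [hE] at hs
      obtain ⟨hT, hs0, h1, _⟩ := hs
      have hj : ∀ j, 1 ≤ rad (s j) * rad (s j)⁻¹ ∧ ((rad (s j) * rad (s j)⁻¹ : ℕ) : ℝ) ≤ B ^ (2 * Module.finrank ℚ K) := by
        intro j
        obtain ⟨a, b, hb, ha', hb', he⟩ := h1 j
        have ha : a ≠ 0 := by
          rintro rfl
          apply hs0 j
          rw [he]
          simp
        have hinv : (s j)⁻¹ = (b : K) / a := by rw [he, inv_div]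
        obtain ⟨h2, h3⟩ := rad_le a b ha hb
        obtain ⟨h4, h5⟩ := rad_le b a hb ha
        rw [hinv, he]
        refine ⟨Nat.mul_pos h2 h4, ?_⟩
        push_cast
        rw [two_mul, pow_add]
        exact mul_le_mul (h3.trans (pow_le_pow_left₀ (house_nonneg _) ha' _))
          (h5.trans (pow_le_pow_left₀ (house_nonneg _) hb' _)) (Nat.cast_nonneg _) (by positivity)
      constructor
      · exact Nat.one_le_iff_ne_zero.2 (prod_ne_zero_iff.2 fun j _ => Nat.one_le_iff_ne_zero.1 (hj j).1)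
      · obtain ⟨j₀⟩ : Nonempty X := inferInstance
        have : Subsingleton X := Fintype.card_le_one_iff_subsingleton.1 hX.le
        rw [show (univ : Finset X) = {j₀} from by
          ext j
          simp [Subsingleton.elim j j₀], prod_singleton]
        exact (hj j₀).2)
    A γ 1 hA hγ0.le hAγ hcount
  refine ⟨c, hc, fun κ hκ m => ?_⟩
  obtain ⟨c', hc', h1⟩ := hmain κ hκ m
  refine ⟨c', hc', fun Z => ?_⟩
  obtain ⟨D, X₀, hX₀⟩ := h1 Z
  have hlarge : ∀ᶠ x : ℝ in atTop, T₁ ≤ x ^ A := (tendsto_rpow_atTop hA).eventually_ge_atTop T₁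
  rw [eventually_atTop] at hlarge
  obtain ⟨X₁, hX₁⟩ := hlarge
  refine ⟨D, max X₀ (max X₁ 1), fun x hx => ?_⟩
  obtain ⟨S, hS1, hS2, hS3⟩ := hX₀ x ((le_max_left _ _).trans hx)
  refine ⟨S, hS1, hS2, fun g hg => (hS3 g hg).trans ?_⟩
  rw [Nat.cast_le]
  apply card_le_card
  intro n hn
  rw [mem_filter] at hn ⊢
  obtain ⟨hn1, hn2, hn3, hn4⟩ := hn
  refine ⟨hn1, hn2, hn3, fun p hp hpp => ⟨?_, (hn4 p hp hpp).2⟩⟩
  have hgood := (hn4 p hp hpp).1
  have hxp : x ≤ p := by
    have h2 : (n : ℝ) ≤ p := by exact_mod_cast (mem_Icc.1 hp).1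
    linarith
  have hT : T₁ ≤ (p : ℝ) ^ A := hX₁ p (((le_max_left _ _).trans (le_max_right _ _)).trans (hx.trans hxp))
  rintro T rfl s hs0 hs k d hk hkd hd
  refine hgood s ?_ k d hk hkd hd
  rw [hE]
  refine ⟨hT, hs0, ?_⟩
  rcases hs with hs | ⟨hinf, hst, hs⟩
  · exact hs
  · obtain ⟨hT0, _, hK, _⟩ := hT₁ _ hT
    exact ((h _ hT0).2 K hK io).2.2.2 hinf hst hs

end Pool.Agent.Results.MP_2794d1_ag.StringsOfPrimes
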